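import Pool.Agent.N909.CX.Def

set_option autoImplicit false

/-! # Project CX, part 7: infinitely many scales -/

open MeasureTheory Filter Set ProbabilityTheory
open scoped ENNReal Topology

namespace Pool.Agent.N328.CX

open Pool.Agent.N909.CX Pool.Agent.N909.CM Pool.Agent.N909.CL

variable {Ω : Type}

/-- the sigma algebra of the decisions at the positions in `S` -/
def sg (B : ℕ → Set Ω) (S : Set ℕ) : MeasurableSpace Ω :=
  ⨆ p ∈ S, MeasurableSpace.generateFrom {B p}

lemma sg_mono (B : ℕ → Set Ω) {S T : Set ℕ} (h : S ⊆ T) : sg B S ≤ sg B T :=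
  biSup_mono fun _ hp => h hp

lemma meas_B (B : ℕ → Set Ω) {S : Set ℕ} {p : ℕ} (hp : p ∈ S) : MeasurableSet[sg B S] (B p) := by
  have h1 : MeasurableSpace.generateFrom {B p} ≤ sg B S :=
    le_iSup₂_of_le p hp le_rfl
  exact h1 _ (MeasurableSpace.measurableSet_generateFrom rfl)

lemma meas_Rz (B : ℕ → Set Ω) (S : Set ℕ) (w : List Bool) :
    ∀ n : ℕ, (∀ p ∈ pos n w, p ∈ S) → MeasurableSet[sg B S] (Rz B n w) := by
  induction w with
  | nil => intro n _; exact MeasurableSet.univ
  | cons d w ih =>
    intro n h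
    have h1 : n ∈ S := h n (by simp [pos])
    have h2 := ih (stp d n) fun p hp => h p (by simp [pos, hp])
    have h3 : MeasurableSet[sg B S] {ω | ω ∈ B n ↔ d = true} := by
      cases d
      · have : {ω : Ω | ω ∈ B n ↔ false = true} = (B n)ᶜ := by ext ω; simp
        rw [this]; exact (meas_B B h1).compl
      · have : {ω : Ω | ω ∈ B n ↔ true = true} = B n := by ext ω; simp
        rw [this]; exact meas_B B h1
    exact MeasurableSet.inter h3 h2

theorem t : Stm7 := by
  intro Ω m0 μ _ B hB hind I hI G hG c hc hlow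
  set U : ℕ → Set Ω := fun j => ⋃ x ∈ G j, Rz B x.1 x.2 with hU
  have hgle : ∀ p, MeasurableSpace.generateFrom {B p} ≤ m0 := by
    intro p
    apply MeasurableSpace.generateFrom_le
    intro s hs
    rw [Set.mem_singleton_iff] at hs
    rw [hs]; exact hB p
  have hsle : ∀ S : Set ℕ, sg B S ≤ m0 := fun S => iSup₂_le fun p _ => hgle p
  have hUj : ∀ j, MeasurableSet[sg B (I j : Set ℕ)] (U j) := by
    intro j
    apply Finset.measurableSet_biUnion
    intro x hx
    exact meas_Rz B _ x.2 x.1 fun p hp => by exact_mod_cast hG j x hx p hp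
  have hUm : ∀ j, MeasurableSet (U j) := fun j => hsle _ _ (hUj j)
  have hind' : iIndep (fun p => MeasurableSpace.generateFrom {B p}) μ := hind
  have hprod : ∀ s : Finset ℕ, μ (⋂ j ∈ s, U j) = ∏ j ∈ s, μ (U j) := by
    intro s
    induction s using Finset.induction_on with
    | empty => simp
    | insert a s ha ih =>
      rw [Finset.prod_insert ha, ← ih]
      have h1 : MeasurableSet[sg B (⋃ j ∈ s, (I j : Set ℕ))] (⋂ j ∈ s, U j) := by
        apply Finset.measurableSet_biInter
        intro j hj
        exact sg_mono B (Set.subset_biUnion_of_mem (u := fun j => (I j : Set ℕ)) hj) _ (hUj j)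
      have h2 : Disjoint (I a : Set ℕ) (⋃ j ∈ s, (I j : Set ℕ)) := by
        rw [Set.disjoint_iUnion₂_right]
        intro j hj
        have : a ≠ j := fun h => ha (h ▸ hj)
        exact_mod_cast hI a j this
      have h3 := indep_iSup_of_disjoint hgle hind' h2
      have h4 := (Indep_iff _ _ _).1 h3 (U a) (⋂ j ∈ s, U j) (hUj a) h1
      have h5 : (⋂ j ∈ insert a s, U j) = U a ∩ ⋂ j ∈ s, U j := by
        rw [Finset.set_biInter_insert]
      rw [h5, h4]
  have hindU : iIndepSet U μ := (iIndepSet_iff_meas_biInter hUm).2 hprod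
  have hsum : (∑' j, μ (U j)) = ∞ := by
    obtain ⟨J, hJ⟩ := eventually_atTop.1 hlow
    by_contra hne
    have h1 := ENNReal.tendsto_atTop_zero_of_tsum_ne_top hne
    have h2 : ∀ᶠ j in atTop, μ (U j) < ENNReal.ofReal c :=
      h1.eventually (gt_mem_nhds (by simpa using hc))
    obtain ⟨j, hj1, hj2⟩ := (h2.and (eventually_ge_atTop J)).exists
    have h3 := hJ j hj2
    have h4 : ENNReal.ofReal c ≤ μ (U j) := by
      rw [ENNReal.ofReal_le_iff_le_toReal (measure_ne_top _ _)]
      exact h3
    exact absurd hj1 (not_lt.2 h4)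
  have hlim := measure_limsup_eq_one hUm hindU hsum
  have hlimm : MeasurableSet (limsup U atTop) := MeasurableSet.measurableSet_limsup hUm
  have hae : ∀ᵐ ω ∂μ, ω ∈ limsup U atTop := by
    rw [← prob_compl_eq_zero_iff hlimm] at hlim
    rw [ae_iff]
    exact hlim
  filter_upwards [hae] with ω hω
  exact mem_limsup_iff_frequently_mem.1 hω

end Pool.Agent.N328.CX
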